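import Pool.Agent.R473.EC.Exp
import Pool.Agent.R473.EC.Pi
import Pool.Agent.Y957.VK.Stm

/-!
# From measures of linear independence to lower bounds for the distance to the integers (helper30)
-/

set_option autoImplicit false

namespace Pool.Agent.W5h30.PB

open Finset
open Pool.Agent.Y957.VK (dz)
open Pool.Agent.W472.AC (Meas)

/-- the condition on the linear forms which is used in `main` -/
def Ty {n : ℕ} (x : Fin n → ℝ) (τ : ℕ) (C0 : ℝ) : Prop :=
  ∀ (H : ℝ) (k : Fin n → ℤ), k ≠ 0 → (∀ j, |(k j : ℝ)| ≤ H) →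
    1 / (C0 * H ^ τ) ≤ dz (∑ j, (k j : ℝ) * x j)

lemma type_of_meas {n : ℕ} (x : Fin n → ℝ) (w c : ℝ) (hc : 0 < c)
    (h : Meas (Fin.cons 1 x : Fin (n + 1) → ℝ) w c) :
    ∃ (τ : ℕ) (C0 : ℝ), 1 ≤ C0 ∧ Ty x τ C0 := by
  obtain ⟨S, hS⟩ : ∃ S : ℝ, S = ∑ j, |x j| + 1 := ⟨_, rfl⟩
  have hS1 : 1 ≤ S := by
    rw [hS]
    have : 0 ≤ ∑ j, |x j| := sum_nonneg fun j _ => abs_nonneg _
    linarith
  have hS0 : 0 < S := by linarith
  refine ⟨⌈w⌉₊, max 1 (S ^ ⌈w⌉₊ / c), le_max_left _ _, fun H k hk hkH => ?_⟩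
  obtain ⟨j, hj⟩ := Function.ne_iff.1 hk
  have hH1 : 1 ≤ H := by
    refine le_trans ?_ (hkH j)
    have : (1 : ℤ) ≤ |k j| := Int.one_le_abs hj
    exact_mod_cast this
  have hH0 : 0 < H := by linarith
  obtain ⟨θ, hθ⟩ : ∃ θ : ℝ, θ = ∑ j, (k j : ℝ) * x j := ⟨_, rfl⟩
  rw [← hθ]
  have hθa : |θ| ≤ H * ∑ j, |x j| := by
    rw [hθ, mul_sum]
    refine (abs_sum_le_sum_abs _ _).trans (sum_le_sum fun j _ => ?_)
    rw [abs_mul]
    exact mul_le_mul_of_nonneg_right (hkH j) (abs_nonneg _)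
  have hr : |(round θ : ℝ)| ≤ H * S := by
    have h1 : |θ - round θ| ≤ 1 / 2 := abs_sub_round θ
    have h2 : |(round θ : ℝ)| ≤ |θ| + |θ - round θ| := by
      have := abs_sub_abs_le_abs_sub (round θ : ℝ) θ
      rw [abs_sub_comm] at this
      linarith
    rw [hS]
    nlinarith
  have hne : (Fin.cons (-round θ) k : Fin (n + 1) → ℤ) ≠ 0 := by
    intro h0
    apply hj
    have := congrFun h0 j.succ
    simpa using this
  have h1 := h (Fin.cons (-round θ) k) hne (H * S) (by nlinarith) (fun i => by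
    refine Fin.cases ?_ (fun i => ?_) i
    · rw [Fin.cons_zero, Int.cast_neg, abs_neg]
      exact hr
    · rw [Fin.cons_succ]
      exact (hkH i).trans (by nlinarith))
  rw [Fin.sum_univ_succ] at h1
  simp only [Fin.cons_zero, Fin.cons_succ, Int.cast_neg, mul_one] at h1
  rw [← hθ] at h1
  have h2 : |-(round θ : ℝ) + θ| = dz θ := by
    unfold dz
    rw [neg_add_eq_sub]
  rw [h2] at h1
  have hHS : 1 ≤ H * S := by nlinarith
  have h3 : (H * S) ^ w ≤ (H * S) ^ ⌈w⌉₊ := by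
    rw [← Real.rpow_natCast]
    exact Real.rpow_le_rpow_of_exponent_le hHS (Nat.le_ceil w)
  have hdz : 0 ≤ dz θ := by unfold dz; exact abs_nonneg _
  have h4 : c ≤ (H * S) ^ ⌈w⌉₊ * dz θ := h1.trans (mul_le_mul_of_nonneg_right h3 hdz)
  have hM : 0 < max 1 (S ^ ⌈w⌉₊ / c) := lt_of_lt_of_le one_pos (le_max_left _ _)
  rw [div_le_iff₀ (by positivity)]
  have h5 : S ^ ⌈w⌉₊ / c ≤ max 1 (S ^ ⌈w⌉₊ / c) := le_max_right _ _
  have h6 : 1 ≤ dz θ * (S ^ ⌈w⌉₊ / c * H ^ ⌈w⌉₊) := by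
    have : dz θ * (S ^ ⌈w⌉₊ / c * H ^ ⌈w⌉₊) = ((H * S) ^ ⌈w⌉₊ * dz θ) / c := by
      rw [mul_pow]
      ring
    rw [this, le_div_iff₀ hc, one_mul]
    exact h4
  refine h6.trans (mul_le_mul_of_nonneg_left ?_ hdz)
  exact mul_le_mul_of_nonneg_right h5 (by positivity)

/-- linear independence of `1, x_1, …, x_n` in terms of integral linear forms -/
lemma li_cons {n : ℕ} (x : Fin n → ℝ)
    (h : ∀ (k : Fin n → ℤ) (p : ℤ), ∑ j, (k j : ℝ) * x j = p → k = 0) :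
    LinearIndependent ℚ (Fin.cons 1 x : Fin (n + 1) → ℝ) := by
  rw [← LinearIndependent.iff_fractionRing (R := ℤ) (K := ℚ)]
  rw [Fintype.linearIndependent_iff]
  intro g hg
  rw [Fin.sum_univ_succ] at hg
  simp only [Fin.cons_zero, Fin.cons_succ, zsmul_eq_mul, mul_one] at hg
  have h1 := h (fun j => g j.succ) (-g 0) (by
    push_cast
    linarith)
  have h0 : ∀ j : Fin n, g j.succ = 0 := fun j => congrFun h1 j
  have h2 : g 0 = 0 := by
    have : (g 0 : ℝ) = 0 := by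
      simp only [h0, Int.cast_zero, zero_mul, sum_const_zero, add_zero] at hg
      exact hg
    exact_mod_cast this
  intro i
  refine Fin.cases h2 h0 i

/-- numbers algebraic over `ℚ(t)` -/
theorem type_alg (t : ℝ) (ht : Pool.Agent.R473.EC.MeasR t) {n : ℕ} (x : Fin n → ℝ)
    (hx : ∀ i, IsAlgebraic (IntermediateField.adjoin ℚ ({t} : Set ℝ)) (x i))
    (h : ∀ (k : Fin n → ℤ) (p : ℤ), ∑ j, (k j : ℝ) * x j = p → k = 0) :
    ∃ (τ : ℕ) (C0 : ℝ), 1 ≤ C0 ∧ Ty x τ C0 := by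
  obtain ⟨w, c, -, hc, hM⟩ := Pool.Agent.R473.EC.meas_alg t ht (Fin.cons 1 x : Fin (n + 1) → ℝ)
    (fun i => by
      refine Fin.cases ?_ (fun i => ?_) i
      · rw [Fin.cons_zero]
        exact isAlgebraic_one
      · rw [Fin.cons_succ]
        exact hx i) (li_cons x h)
  exact type_of_meas x w c hc hM

end Pool.Agent.W5h30.PB
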