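import Pool.Agent.W5h30.PB.Weyl
import Pool.Agent.W5h30.BS.Main

/-!
# The joint distribution of `x_j Q(m) ^ i`, `j ≤ n`, `i ≤ N`, for random `m` (helper30)
-/

set_option autoImplicit false

namespace Pool.Agent.W5h30.PB

open Finset Filter Polynomial
open Pool.Agent.Y957.VK (dz)
open Pool.Agent.Y933.KD (e ind)
open Pool.Agent.W5h30.BS (test asym)

/-- the value of the polynomial `Q` at `m`, as a real number -/
noncomputable def bas (Q : ℤ[X]) (m : ℕ) : ℝ := ((Q.eval (m : ℤ) : ℤ) : ℝ)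

/-- the numbers `x_j β ^ i` -/
noncomputable def yy {n N : ℕ} (x : Fin n → ℝ) (β : ℝ) (p : Fin (n * N)) : ℝ :=
  x p.divNat * β ^ ((p.modNat : ℕ) + 1)

/-- the classes of the fractional parts of `x_j β ^ i`, `1 ≤ i ≤ N`, when the unit interval is
divided into `D` equal intervals -/
noncomputable def cls {n : ℕ} (x : Fin n → ℝ) (N D : ℕ) (β : ℝ) (j : Fin n) (i : Fin N) : ℕ :=
  ⌊(D : ℝ) * Int.fract (x j * β ^ ((i : ℕ) + 1))⌋₊

lemma ind_prod {n : ℕ} (x : Fin n → ℝ) (N D : ℕ) (β : ℝ) (hD : 1 ≤ D) (a : Fin n → Fin N → ℕ) :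
    ∏ p : Fin (n * N), ind ((a p.divNat p.modNat : ℝ) / D) (((a p.divNat p.modNat : ℝ) + 1) / D) (yy x β p) =
      if cls x N D β = a then 1 else 0 := by
  classical
  have hDR : (0 : ℝ) < D := by exact_mod_cast hD
  have h1 : ∀ p : Fin (n * N), ind ((a p.divNat p.modNat : ℝ) / D) (((a p.divNat p.modNat : ℝ) + 1) / D) (yy x β p) =
      if cls x N D β p.divNat p.modNat = a p.divNat p.modNat then 1 else 0 := by
    intro p
    unfold ind
    refine if_congr ?_ rfl rfl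
    unfold cls yy
    rw [Nat.floor_eq_iff (mul_nonneg hDR.le (Int.fract_nonneg _)), div_le_iff₀ hDR,
      lt_div_iff₀ hDR, mul_comm (D : ℝ)]
  rw [prod_congr rfl fun i _ => h1 i]
  by_cases h : cls x N D β = a
  · rw [if_pos h]
    exact prod_eq_one fun p _ => if_pos (by rw [h])
  · rw [if_neg h]
    obtain ⟨j, hj⟩ := Function.ne_iff.1 h
    obtain ⟨i, hi⟩ := Function.ne_iff.1 hj
    refine prod_eq_zero (mem_univ (finProdFinEquiv (j, i))) ?_
    have e1 : (finProdFinEquiv (j, i)).divNat = j := congrArg Prod.fst (finProdFinEquiv.symm_apply_apply (j, i))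
    have e2 : (finProdFinEquiv (j, i)).modNat = i := congrArg Prod.snd (finProdFinEquiv.symm_apply_apply (j, i))
    rw [e1, e2]
    exact if_neg hi

lemma bas_eq (Q : ℤ[X]) (m : ℕ) : (Q.map (Int.castRingHom ℝ)).eval (m : ℝ) = bas Q m := by
  unfold bas
  have h := Polynomial.eval_intCast_map (Int.castRingHom ℝ) Q (m : ℤ)
  simp only [Int.cast_natCast, eq_intCast] at h
  exact h

/-- the polynomial of a frequency, and its leading coefficient -/
lemma lead {n N : ℕ} (x : Fin n → ℝ) {τ : ℕ} {C0 : ℝ}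
    (hty : ∀ (H : ℝ) (k : Fin n → ℤ), k ≠ 0 → (∀ j, |(k j : ℝ)| ≤ H) →
      1 / (C0 * H ^ τ) ≤ dz (∑ j, (k j : ℝ) * x j)) (hC0 : 1 ≤ C0)
    (h : Fin (n * N) → ℤ) (hh : h ≠ 0) {K : ℕ}
    (hK : 1 ≤ K) (hhK : ∀ p, |(h p : ℝ)| ≤ (K : ℝ) ^ 3) (Q : ℤ[X]) (hQ : 1 ≤ Q.natDegree) {B : ℝ}
    (hB : 1 ≤ B) (hQB : |(Q.leadingCoeff : ℝ)| ≤ B) :
    ∃ G : ℝ[X], (∀ m : ℕ, ∑ p : Fin (n * N), (h p : ℝ) * yy x (bas Q m) p = G.eval (m : ℝ)) ∧
      1 ≤ G.natDegree ∧ G.natDegree ≤ N * Q.natDegree ∧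
      ∀ q : ℤ, q ≠ 0 → 1 / (C0 * ((K : ℝ) ^ 3 * B ^ N) ^ τ * |(q : ℝ)| ^ τ) ≤
        dz (G.leadingCoeff * q) := by
  classical
  have hdm : ∀ (j : Fin n) (i : Fin N), (finProdFinEquiv (j, i)).divNat = j ∧
      (finProdFinEquiv (j, i)).modNat = i := fun j i =>
    ⟨congrArg Prod.fst (finProdFinEquiv.symm_apply_apply (j, i)),
      congrArg Prod.snd (finProdFinEquiv.symm_apply_apply (j, i))⟩
  obtain ⟨g, hg⟩ : ∃ g : Fin N → Fin n → ℤ, ∀ i j, g i j = h (finProdFinEquiv (j, i)) :=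
    ⟨fun i j => h (finProdFinEquiv (j, i)), fun _ _ => rfl⟩
  obtain ⟨i0, hi0, hmax⟩ : ∃ i0 : Fin N, g i0 ≠ 0 ∧ ∀ i, i0 < i → g i = 0 := by
    obtain ⟨p, hp⟩ := Function.ne_iff.1 hh
    have hne : (Finset.univ.filter (fun i : Fin N => g i ≠ 0)).Nonempty := by
      refine ⟨p.modNat, ?_⟩
      rw [Finset.mem_filter]
      refine ⟨Finset.mem_univ _, fun h0 => hp ?_⟩
      have h1 := congrFun h0 p.divNat
      rw [hg] at h1
      have h2 : finProdFinEquiv (p.divNat, p.modNat) = p := finProdFinEquiv.apply_symm_apply p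
      rw [h2] at h1
      exact h1
    refine ⟨(Finset.univ.filter (fun i : Fin N => g i ≠ 0)).max' hne, ?_, ?_⟩
    · exact (Finset.mem_filter.1 (Finset.max'_mem _ hne)).2
    · intro i hi
      by_contra hcon
      have := Finset.le_max' (Finset.univ.filter (fun i : Fin N => g i ≠ 0)) i
        (by rw [Finset.mem_filter]; exact ⟨Finset.mem_univ _, hcon⟩)
      exact absurd hi (not_lt.2 this)
  obtain ⟨θ, hθ⟩ : ∃ θ : Fin N → ℝ, ∀ i, θ i = ∑ j, (g i j : ℝ) * x j := ⟨_, fun _ => rfl⟩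
  obtain ⟨b, hb⟩ : ∃ b, b = Q.leadingCoeff := ⟨_, rfl⟩
  have hb0 : b ≠ 0 := by
    rw [hb]
    intro h0
    rw [leadingCoeff_eq_zero] at h0
    rw [h0] at hQ
    simp at hQ
  obtain ⟨Qr, hQr⟩ : ∃ Qr : ℝ[X], Qr = Q.map (Int.castRingHom ℝ) := ⟨_, rfl⟩
  have hinj : Function.Injective (Int.castRingHom ℝ) := RingHom.injective_int _
  have hQrd : Qr.natDegree = Q.natDegree := by
    rw [hQr]; exact natDegree_map_eq_of_injective hinj Q
  have hQrl : Qr.leadingCoeff = (b : ℝ) := by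
    rw [hQr, leadingCoeff_map_of_injective hinj, hb]
    rfl
  obtain ⟨G, hG⟩ : ∃ G : ℝ[X], G = ∑ i : Fin N, C (θ i) * Qr ^ ((i : ℕ) + 1) := ⟨_, rfl⟩
  have hi0N := i0.isLt
  -- the Diophantine condition
  have hdio : ∀ q : ℤ, q ≠ 0 → 1 / (C0 * ((K : ℝ) ^ 3 * B ^ N) ^ τ * |(q : ℝ)| ^ τ) ≤
        dz (θ i0 * (b : ℝ) ^ ((i0 : ℕ) + 1) * q) := by
    intro q hq
    have hq0 : (0 : ℝ) < |(q : ℝ)| := by
      rw [abs_pos]
      exact_mod_cast hq
    have hKR : (0 : ℝ) < K := by exact_mod_cast hK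
    have hBN : |(b : ℝ) ^ ((i0 : ℕ) + 1)| ≤ B ^ N := by
      rw [abs_pow]
      calc |(b : ℝ)| ^ ((i0 : ℕ) + 1) ≤ B ^ ((i0 : ℕ) + 1) :=
            pow_le_pow_left₀ (abs_nonneg _) (by rw [hb]; exact hQB) _
        _ ≤ B ^ N := pow_le_pow_right₀ hB (by omega)
    have h1 := hty ((K : ℝ) ^ 3 * B ^ N * |(q : ℝ)|) (fun j => g i0 j * (b ^ ((i0 : ℕ) + 1) * q))
      (fun h0 => hi0 (by
        funext j
        have h2 := congrFun h0 j
        simp only [Pi.zero_apply, mul_eq_zero] at h2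
        rcases h2 with h2 | h2 | h2
        · exact h2
        · exact absurd h2 (pow_ne_zero _ hb0)
        · exact absurd h2 hq)) (fun j => by
        push_cast
        rw [abs_mul, abs_mul, mul_assoc]
        refine mul_le_mul ?_ (mul_le_mul_of_nonneg_right hBN (abs_nonneg _)) (by positivity)
          (by positivity)
        rw [hg]
        exact hhK _)
    have e1 : C0 * ((K : ℝ) ^ 3 * B ^ N) ^ τ * |(q : ℝ)| ^ τ =
        C0 * ((K : ℝ) ^ 3 * B ^ N * |(q : ℝ)|) ^ τ := by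
      rw [mul_pow _ (|(q : ℝ)|)]; ring
    have e2 : θ i0 * (b : ℝ) ^ ((i0 : ℕ) + 1) * q =
        ∑ j, ((g i0 j * (b ^ ((i0 : ℕ) + 1) * q) : ℤ) : ℝ) * x j := by
      rw [hθ, Finset.sum_mul, Finset.sum_mul]
      refine sum_congr rfl fun j _ => ?_
      push_cast
      ring
    rw [e1, e2]
    exact h1
  have hc0 : θ i0 * (b : ℝ) ^ ((i0 : ℕ) + 1) ≠ 0 := by
    intro h0
    have h1 := hdio 1 one_ne_zero
    rw [h0] at h1
    have h2 : dz (0 * ((1 : ℤ) : ℝ)) = 0 := by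
      unfold dz
      simp
    rw [h2] at h1
    have h3 : (0 : ℝ) < |((1 : ℤ) : ℝ)| := by simp
    have h4 : (0 : ℝ) < K := by exact_mod_cast hK
    have : 0 < 1 / (C0 * ((K : ℝ) ^ 3 * B ^ N) ^ τ * |((1 : ℤ) : ℝ)| ^ τ) := by positivity
    linarith
  -- the coefficients
  have hco : ∀ k, ((i0 : ℕ) + 1) * Q.natDegree ≤ k →
      G.coeff k = θ i0 * (Qr ^ ((i0 : ℕ) + 1)).coeff k := by
    intro k hk
    rw [hG, finsetSum_coeff, Finset.sum_eq_single i0]
    · rw [coeff_C_mul]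
    · intro i _ hi
      rw [coeff_C_mul]
      rcases lt_or_gt_of_ne hi with h1 | h1
      · have h2 : (Qr ^ ((i : ℕ) + 1)).coeff k = 0 := by
          apply coeff_eq_zero_of_natDegree_lt
          rw [natDegree_pow, hQrd]
          have h3 : (i : ℕ) < i0 := h1
          calc ((i : ℕ) + 1) * Q.natDegree < ((i0 : ℕ) + 1) * Q.natDegree := by
                apply Nat.mul_lt_mul_of_pos_right (by omega) (by omega)
            _ ≤ k := hk
        rw [h2, mul_zero]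
      · rw [hθ, hmax i h1]
        simp
    · intro h'
      exact absurd (Finset.mem_univ _) h'
  have hcd : G.coeff (((i0 : ℕ) + 1) * Q.natDegree) = θ i0 * (b : ℝ) ^ ((i0 : ℕ) + 1) := by
    rw [hco _ le_rfl]
    congr 1
    have h1 : (Qr ^ ((i0 : ℕ) + 1)).natDegree = ((i0 : ℕ) + 1) * Q.natDegree := by
      rw [natDegree_pow, hQrd]
    rw [← h1, coeff_natDegree, leadingCoeff_pow, hQrl]
  have hdeg : G.natDegree = ((i0 : ℕ) + 1) * Q.natDegree := by
    refine natDegree_eq_of_le_of_coeff_ne_zero ?_ ?_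
    · refine natDegree_le_iff_coeff_eq_zero.2 fun k hk => ?_
      rw [hco k hk.le]
      have h2 : (Qr ^ ((i0 : ℕ) + 1)).coeff k = 0 := by
        apply coeff_eq_zero_of_natDegree_lt
        rw [natDegree_pow, hQrd]
        exact hk
      rw [h2, mul_zero]
    · rw [hcd]
      exact hc0
  refine ⟨G, fun m => ?_, ?_, ?_, fun q hq => ?_⟩
  · rw [hG, eval_finsetSum, ← finProdFinEquiv.sum_comp, Fintype.sum_prod_type, Finset.sum_comm]
    refine sum_congr rfl fun i _ => ?_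
    rw [eval_mul, eval_C, eval_pow, hQr, bas_eq, hθ, Finset.sum_mul]
    refine sum_congr rfl fun j _ => ?_
    unfold yy
    rw [(hdm j i).1, (hdm j i).2, hg]
    ring
  · rw [hdeg]
    exact Nat.mul_pos (by omega) (by omega)
  · rw [hdeg]
    exact Nat.mul_le_mul_right _ (by omega)
  · have h1 : G.leadingCoeff = θ i0 * (b : ℝ) ^ ((i0 : ℕ) + 1) := by
      rw [leadingCoeff, hdeg, hcd]
    rw [h1]
    exact hdio q hq

/-- one box -/
theorem box : ∃ η : ℝ, 0 < η ∧ ∀ (n : ℕ) (x : Fin n → ℝ) (τ : ℕ) (C0 : ℝ), 1 ≤ C0 →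
    (∀ (H : ℝ) (k : Fin n → ℤ), k ≠ 0 → (∀ j, |(k j : ℝ)| ≤ H) →
      1 / (C0 * H ^ τ) ≤ dz (∑ j, (k j : ℝ) * x j)) →
    ∃ R₀ : ℕ, ∀ R : ℕ, R₀ ≤ R → 1 ≤ R ∧ 1 ≤ Real.log R ∧ 3 ≤ Real.exp (√(Real.log R)) ∧
      2 * √(Real.log R) ≤ Real.log R ∧
      ∀ (Q : ℤ[X]) (N D : ℕ), 1 ≤ Q.natDegree → (Q.natDegree : ℝ) ≤ (Real.log R) ^ η →
      |(Q.leadingCoeff : ℝ)| ≤ Real.exp ((Real.log R) ^ η) →
      (N : ℝ) ≤ (Real.log R) ^ η → ((n * N : ℕ) : ℝ) ≤ (Real.log R) ^ η →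
      (D : ℝ) ≤ Real.exp ((Real.log R) ^ η) →
      ((D : ℝ) ^ (n * N) ≤ Real.exp (√(Real.log R))) ∧
      ∀ u v : Fin (n * N) → ℝ, (∀ i, 0 ≤ u i) → (∀ i, u i ≤ v i) → (∀ i, v i ≤ 1) →
      |∑ m ∈ Finset.Ioc 0 R, ∏ p, ind (u p) (v p) (yy x (bas Q m) p) -
        R * ∏ i, (v i - u i)| ≤ R * (2 * Real.exp (-(3 * √(Real.log R)))) := by
  obtain ⟨C, hC⟩ := weyl
  obtain ⟨η, hη⟩ : ∃ η : ℝ, η = 1 / (32 * ((C : ℝ) + 1)) := ⟨_, rfl⟩
  have hC0' : (0 : ℝ) ≤ C := Nat.cast_nonneg C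
  have hη0 : 0 < η := by rw [hη]; positivity
  have hη1 : η ≤ 1 / 32 := by
    rw [hη]
    apply one_div_le_one_div_of_le (by norm_num)
    linarith
  have hη2 : C * η ≤ 1 / 2 := by
    rw [hη, mul_one_div, div_le_iff₀ (by positivity)]
    linarith
  refine ⟨η / 2, by positivity, fun n x τ C0 hC0 hty => ?_⟩
  obtain ⟨L0, hL0⟩ := eventually_atTop.1 ((asym C τ C0 η hη0 hη1 hη2).and
    (asym C (2 * τ) C0 η hη0 hη1 hη2))
  obtain ⟨R0, hR0⟩ := eventually_atTop.1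
    ((Real.tendsto_log_atTop.comp tendsto_natCast_atTop_atTop).eventually_ge_atTop L0)
  refine ⟨max R0 1, fun R hR => ?_⟩
  have hR1 : 1 ≤ R := le_of_max_le_right hR
  have hRR : (1 : ℝ) ≤ R := by exact_mod_cast hR1
  have hRp : (0 : ℝ) < R := by linarith
  obtain ⟨L, hLdef⟩ : ∃ L, L = Real.log R := ⟨_, rfl⟩
  have hLL : L0 ≤ L := by rw [hLdef]; exact hR0 R (le_of_max_le_left hR)
  have hRL : (R : ℝ) = Real.exp L := by rw [hLdef, Real.exp_log hRp]
  obtain ⟨⟨a1, a2, a3, a4, a5, a6, a7, a8, a9, a10, a11, a12, a13, a14, a15, a16⟩,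
    ⟨_, _, _, _, c5, _⟩⟩ := hL0 L hLL
  rw [← hLdef]
  have hLp : 0 < L := lt_of_lt_of_le one_pos a1
  have hhalf : L ^ (η / 2) ≤ L ^ η := Real.rpow_le_rpow_of_exponent_le a1 (by linarith)
  have hhalf2 : L ^ (η / 2) * L ^ (η / 2) = L ^ η := by
    rw [← Real.rpow_add hLp]
    congr 1
    ring
  refine ⟨hR1, a1, a16, a15, fun Q N D hQ1 hQd hQl hN' hnN' hD' => ?_⟩
  have hN : (N : ℝ) ≤ L ^ η := hN'.trans hhalf
  have hnN : ((n * N : ℕ) : ℝ) ≤ L ^ η := hnN'.trans hhalf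
  have hD : (D : ℝ) ≤ Real.exp (L ^ η) := hD'.trans (Real.exp_le_exp.2 hhalf)
  obtain ⟨M, hM⟩ : ∃ M : ℕ, M = N * Q.natDegree := ⟨_, rfl⟩
  have hML : (M : ℝ) ≤ L ^ η := by
    rw [hM, ← hhalf2]
    push_cast
    exact mul_le_mul hN' hQd (Nat.cast_nonneg _) (by positivity)
  refine ⟨?_, ?_⟩
  · calc (D : ℝ) ^ (n * N) ≤ (Real.exp (L ^ η)) ^ (n * N) :=
          pow_le_pow_left₀ (Nat.cast_nonneg _) hD _
      _ = Real.exp (((n * N : ℕ) : ℝ) * L ^ η) := by rw [← Real.exp_nat_mul]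
      _ ≤ Real.exp (√L) := by
          apply Real.exp_le_exp.2
          refine le_trans ?_ a14
          have : 0 ≤ L ^ η := by positivity
          gcongr
  intro u v hu huv hv
  have hsq0 : 0 ≤ √L := Real.sqrt_nonneg L
  have hLη : 0 ≤ L ^ η := by positivity
  have hLη1 : 1 ≤ L ^ η := Real.one_le_rpow a1 hη0.le
  -- the parameters
  obtain ⟨K, hK⟩ : ∃ K : ℕ, K = ⌈Real.exp (4 * √L)⌉₊ := ⟨_, rfl⟩
  have hK1 : Real.exp (4 * √L) ≤ K := by rw [hK]; exact Nat.le_ceil _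
  have hKp : (0 : ℝ) < K := lt_of_lt_of_le (Real.exp_pos _) hK1
  have hK0 : 0 < K := by exact_mod_cast hKp
  have hK2 : (K : ℝ) ≤ Real.exp (5 * √L) := by
    have h1 : (K : ℝ) < Real.exp (4 * √L) + 1 := by
      rw [hK]; exact Nat.ceil_lt_add_one (Real.exp_pos _).le
    have h2 : Real.exp (5 * √L) = Real.exp (4 * √L) * Real.exp (√L) := by
      rw [← Real.exp_add]; congr 1; ring
    have h3 : 1 ≤ Real.exp (4 * √L) := Real.one_le_exp (by positivity)
    rw [h2]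
    nlinarith
  obtain ⟨U, hU⟩ : ∃ U : ℕ, U = ⌊Real.exp (L / (4 * (τ + 1)))⌋₊ := ⟨_, rfl⟩
  have hτ : (0 : ℝ) ≤ τ := Nat.cast_nonneg τ
  have hUle : (U : ℝ) ≤ Real.exp (L / (4 * (τ + 1))) := by
    rw [hU]; exact Nat.floor_le (Real.exp_pos _).le
  have hUge : Real.exp (L / (8 * (τ + 1))) ≤ U := by
    have h1 : Real.exp (L / (4 * (τ + 1))) < (U : ℝ) + 1 := by
      rw [hU]; exact Nat.lt_floor_add_one _
    have h2 : Real.exp (L / (4 * ((τ : ℝ) + 1))) = Real.exp (L / (8 * (τ + 1))) *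
        Real.exp (L / (8 * (τ + 1))) := by
      rw [← Real.exp_add]; congr 1; field_simp; ring
    rw [h2] at h1
    nlinarith
  have hUp : (0 : ℝ) < U := lt_of_lt_of_le (Real.exp_pos _) hUge
  have hU1 : 1 ≤ U := by
    have : 0 < U := by exact_mod_cast hUp
    omega
  have hlogU : L / (8 * (τ + 1)) ≤ Real.log U := by
    rw [Real.le_log_iff_exp_le hUp]; exact hUge
  obtain ⟨P, hP⟩ : ∃ P : ℝ, P = (M : ℝ) + 4 * τ + 7 := ⟨_, rfl⟩
  have hP0 : 0 < P := by rw [hP]; positivity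
  have hP2 : P ≤ 2 * L ^ η := by rw [hP]; linarith
  have h34 : 0 ≤ L ^ (3 / 4 : ℝ) := by positivity
  obtain ⟨E, hE⟩ : ∃ E : ℝ, E = Real.exp (-(L ^ (3 / 4 : ℝ))) := ⟨_, rfl⟩
  obtain ⟨B, hB⟩ : ∃ B : ℝ, B = Real.exp (L ^ (η / 2)) := ⟨_, rfl⟩
  have hB1 : 1 ≤ B := by rw [hB]; exact Real.one_le_exp (by positivity)
  have hQB : |(Q.leadingCoeff : ℝ)| ≤ B := by rw [hB]; exact hQl
  -- the exponential sums
  have hA : Real.exp (C * P ^ C) * C0 * ((K : ℝ) ^ 3 * B ^ N) ^ τ *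
      (U : ℝ) ^ (-(1 / (8 * P ^ 6)) : ℝ) ≤ E := by
    have b1 : Real.exp (C * P ^ C) ≤ Real.exp (L ^ (3 / 4 : ℝ)) := by
      apply Real.exp_le_exp.2
      refine le_trans ?_ a3
      gcongr
    have b2 : ((K : ℝ) ^ 3 * B ^ N) ^ τ ≤ Real.exp (L ^ (3 / 4 : ℝ)) := by
      have d1 : B ^ N ≤ Real.exp (15 * √L) := by
        rw [hB, ← Real.exp_nat_mul]
        apply Real.exp_le_exp.2
        calc (N : ℝ) * L ^ (η / 2) ≤ L ^ (η / 2) * L ^ (η / 2) := by gcongr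
          _ = L ^ η := hhalf2
          _ ≤ L ^ η * L ^ η := by nlinarith
          _ ≤ √L := a14
          _ ≤ 15 * √L := by linarith
      calc ((K : ℝ) ^ 3 * B ^ N) ^ τ ≤ ((Real.exp (5 * √L)) ^ 3 * Real.exp (15 * √L)) ^ τ := by
            gcongr
        _ = Real.exp (15 * ((2 * τ : ℕ) : ℝ) * √L) := by
            rw [← Real.exp_nat_mul, ← Real.exp_add, ← Real.exp_nat_mul]
            congr 1
            push_cast
            ring
        _ ≤ _ := Real.exp_le_exp.2 c5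
    have b3 : (U : ℝ) ^ (-(1 / (8 * P ^ 6)) : ℝ) ≤ Real.exp (-(4 * L ^ (3 / 4 : ℝ))) := by
      rw [Real.rpow_def_of_pos hUp]
      apply Real.exp_le_exp.2
      have c1 : 4 * L ^ (3 / 4 : ℝ) ≤ Real.log U * (1 / (8 * P ^ 6)) := by
        refine a6.trans ?_
        have : 0 ≤ L / (8 * ((τ : ℝ) + 1)) := by positivity
        gcongr
      rw [mul_neg]
      exact neg_le_neg c1
    rw [hE]
    calc _ ≤ Real.exp (L ^ (3 / 4 : ℝ)) * Real.exp (L ^ (3 / 4 : ℝ)) * Real.exp (L ^ (3 / 4 : ℝ)) *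
          Real.exp (-(4 * L ^ (3 / 4 : ℝ))) := by gcongr
      _ = Real.exp (-(L ^ (3 / 4 : ℝ))) := by
          rw [← Real.exp_add, ← Real.exp_add, ← Real.exp_add]; congr 1; ring
  have hBB : 2 * ((U ^ (τ + 1) : ℕ) : ℝ) ^ 2 ≤ R * E := by
    have b1 : ((U ^ (τ + 1) : ℕ) : ℝ) ^ 2 ≤ Real.exp (L / 2) := by
      push_cast
      calc ((U : ℝ) ^ (τ + 1)) ^ 2 ≤ ((Real.exp (L / (4 * (τ + 1)))) ^ (τ + 1)) ^ 2 := by gcongr
        _ = Real.exp (L / 2) := by
            rw [← pow_mul, ← Real.exp_nat_mul]; congr 1; push_cast; field_simp; ring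
    have b2 : (2 : ℝ) ≤ Real.exp 1 := by
      have := Real.add_one_le_exp (1 : ℝ)
      linarith
    rw [hRL, hE, ← Real.exp_add]
    calc 2 * ((U ^ (τ + 1) : ℕ) : ℝ) ^ 2 ≤ Real.exp 1 * Real.exp (L / 2) := by gcongr
      _ = Real.exp (1 + L / 2) := by rw [← Real.exp_add]
      _ ≤ _ := by apply Real.exp_le_exp.2; linarith
  have hcard : (Finset.Ioc 0 R).card = R := by rw [Nat.card_Ioc]; omega
  have hE0 : 0 ≤ E := by rw [hE]; positivity
  have key := test (Finset.Ioc 0 R) (n * N) K hK0 (fun (m : ℕ) (p : Fin (n * N)) => yy x (bas Q m) p)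
    (2 * E) (by positivity) (by
      intro h hh hhK
      obtain ⟨G, hG0, hG1, hG2, hG3⟩ := lead x hty hC0 h hh (by exact_mod_cast hK0)
        (fun i => by exact_mod_cast hhK i) Q hQ1 hB1 hQB
      have hKN : 1 ≤ C0 * ((K : ℝ) ^ 3 * B ^ N) ^ τ :=
        one_le_mul_of_one_le_of_one_le hC0 (one_le_pow₀ (one_le_mul_of_one_le_of_one_le
          (one_le_pow₀ (by exact_mod_cast hK0)) (one_le_pow₀ hB1)))
      have h1 := hC τ M G (C0 * ((K : ℝ) ^ 3 * B ^ N) ^ τ) R U hKN hG1 (by rw [hM]; exact hG2) hG3 hU1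
      rw [hcard]
      have e9 : Real.exp (C * P ^ C) * (C0 * ((K : ℝ) ^ 3 * B ^ N) ^ τ) *
          (U : ℝ) ^ (-(1 / (8 * P ^ 6)) : ℝ) =
          Real.exp (C * P ^ C) * C0 * ((K : ℝ) ^ 3 * B ^ N) ^ τ *
          (U : ℝ) ^ (-(1 / (8 * P ^ 6)) : ℝ) := by ring
      rw [← hP, e9] at h1
      simp only [hG0]
      refine h1.trans ?_
      calc _ ≤ (R : ℝ) * E + R * E := by
            refine add_le_add (mul_le_mul_of_nonneg_left hA hRp.le) hBB
        _ = _ := by ring) u v hu huv hv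
  rw [hcard] at key
  refine key.trans (mul_le_mul_of_nonneg_left ?_ hRp.le)
  have c1 : (2 * (K : ℝ) ^ 3 + 1) ^ (n * N) ≤ Real.exp (L ^ (3 / 4 : ℝ) / 2) := by
    have d1 : 2 * (K : ℝ) ^ 3 + 1 ≤ Real.exp (16 * √L) := by
      have d2 : (1 : ℝ) ≤ K := by exact_mod_cast hK0
      have d3 : (1 : ℝ) ≤ (K : ℝ) ^ 3 := one_le_pow₀ d2
      calc 2 * (K : ℝ) ^ 3 + 1 ≤ 3 * (K : ℝ) ^ 3 := by linarith
        _ ≤ Real.exp (√L) * (Real.exp (5 * √L)) ^ 3 := by gcongr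
        _ = Real.exp (16 * √L) := by
            rw [← Real.exp_nat_mul, ← Real.exp_add]; congr 1; push_cast; ring
    calc (2 * (K : ℝ) ^ 3 + 1) ^ (n * N) ≤ (Real.exp (16 * √L)) ^ (n * N) := by gcongr
      _ = Real.exp (((n * N : ℕ) : ℝ) * (16 * √L)) := by rw [← Real.exp_nat_mul]
      _ ≤ _ := by
          apply Real.exp_le_exp.2
          refine le_trans ?_ a10
          rw [mul_comm]
          gcongr
  have c2 : (2 * (K : ℝ) ^ 3 + 1) ^ (n * N) * (2 * E) ≤ Real.exp (-(3 * √L)) := by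
    have b2 : (2 : ℝ) ≤ Real.exp 1 := by
      have := Real.add_one_le_exp (1 : ℝ)
      linarith
    calc _ ≤ Real.exp (L ^ (3 / 4 : ℝ) / 2) * (Real.exp 1 * E) := by gcongr
      _ = Real.exp (1 - L ^ (3 / 4 : ℝ) / 2) := by
          rw [hE, ← Real.exp_add, ← Real.exp_add]; congr 1; ring
      _ ≤ _ := by apply Real.exp_le_exp.2; linarith
  have c3 : ((n * N : ℕ) : ℝ) * (7 / K + 10 * (2 * E)) ≤ Real.exp (-(3 * √L)) := by
    have d1 : 7 / (K : ℝ) ≤ 7 * Real.exp (-(4 * √L)) := by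
      rw [Real.exp_neg, ← div_eq_mul_inv]
      apply div_le_div_of_nonneg_left (by norm_num) (Real.exp_pos _) hK1
    have d2 : E ≤ Real.exp (-(4 * √L)) := by
      rw [hE]
      apply Real.exp_le_exp.2
      linarith
    calc ((n * N : ℕ) : ℝ) * (7 / K + 10 * (2 * E)) ≤ L ^ η * (7 * Real.exp (-(4 * √L)) +
          10 * (2 * Real.exp (-(4 * √L)))) := by gcongr
      _ = (27 * L ^ η) * Real.exp (-(4 * √L)) := by ring
      _ ≤ Real.exp (√L) * Real.exp (-(4 * √L)) := by gcongr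
      _ = _ := by rw [← Real.exp_add]; congr 1; ring
  linarith

/-- **the joint distribution in total variation** -/
theorem main : ∃ η : ℝ, 0 < η ∧ ∀ (n : ℕ) (x : Fin n → ℝ) (τ : ℕ) (C0 : ℝ), 1 ≤ C0 →
    (∀ (H : ℝ) (k : Fin n → ℤ), k ≠ 0 → (∀ j, |(k j : ℝ)| ≤ H) →
      1 / (C0 * H ^ τ) ≤ dz (∑ j, (k j : ℝ) * x j)) →
    ∃ R₀ : ℕ, ∀ R : ℕ, R₀ ≤ R → ∀ (Q : ℤ[X]) (N D : ℕ), 1 ≤ Q.natDegree →
      (Q.natDegree : ℝ) ≤ (Real.log R) ^ η →
      |(Q.leadingCoeff : ℝ)| ≤ Real.exp ((Real.log R) ^ η) →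
      (N : ℝ) ≤ (Real.log R) ^ η → 1 ≤ D → (D : ℝ) ≤ Real.exp ((Real.log R) ^ η) →
      ∀ A : Finset (Fin n → Fin N → ℕ), (∀ a ∈ A, ∀ j i, a j i < D) →
      |(((Finset.Ioc 0 R).filter (fun m => cls x N D (bas Q m) ∈ A)).card : ℝ) -
        R * (A.card / (D : ℝ) ^ (n * N))| ≤ R * Real.exp (-√(Real.log R)) := by
  classical
  obtain ⟨η, hη, h⟩ := box
  refine ⟨η / 2, by positivity, fun n x τ C0 hC0 hty => ?_⟩
  obtain ⟨R₀, hR₀⟩ := h n x τ C0 hC0 hty
  obtain ⟨R1, hR1'⟩ := eventually_atTop.1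
    ((Real.tendsto_log_atTop.comp tendsto_natCast_atTop_atTop).eventually
      (BS.ev_const (n : ℝ) (by positivity : 0 < η / 2)))
  refine ⟨max R₀ R1, fun R hR Q N D hQ1 hQd hQl hN' hD1 hD' A hA => ?_⟩
  obtain ⟨hR1, b1, b2, b3, hbox⟩ := hR₀ R (le_of_max_le_left hR)
  have hn1 : (n : ℝ) ≤ (Real.log R) ^ (η / 2) := hR1' R (le_of_max_le_right hR)
  have hη2 : (Real.log R) ^ (η / 2) ≤ (Real.log R) ^ η :=
    Real.rpow_le_rpow_of_exponent_le b1 (by linarith)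
  have hN : (N : ℝ) ≤ (Real.log R) ^ η := hN'.trans hη2
  have hnN : ((n * N : ℕ) : ℝ) ≤ (Real.log R) ^ η := by
    have e1 : (Real.log R) ^ η = (Real.log R) ^ (η / 2) * (Real.log R) ^ (η / 2) := by
      rw [← Real.rpow_add (by linarith)]
      congr 1
      ring
    rw [e1]
    push_cast
    exact mul_le_mul hn1 hN' (Nat.cast_nonneg _) ((Nat.cast_nonneg _).trans hn1)
  have hD : (D : ℝ) ≤ Real.exp ((Real.log R) ^ η) := hD'.trans (Real.exp_le_exp.2 hη2)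
  obtain ⟨hDN, hbox⟩ := hbox Q N D hQ1 (hQd.trans hη2) (hQl.trans (Real.exp_le_exp.2 hη2)) hN hnN hD
  have hDR : (1 : ℝ) ≤ D := by exact_mod_cast hD1
  have hDp : (0 : ℝ) < D := by linarith
  have hRR : (1 : ℝ) ≤ R := by exact_mod_cast hR1
  have hRp : (0 : ℝ) < R := by linarith
  obtain ⟨L, hLdef⟩ : ∃ L, L = Real.log R := ⟨_, rfl⟩
  rw [← hLdef] at b1 b2 b3 hbox hDN ⊢
  have hRL : (R : ℝ) = Real.exp L := by rw [hLdef, Real.exp_log hRp]
  -- one class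
  have h1 : ∀ a ∈ A, |((((Finset.Ioc 0 R).filter (fun m => cls x N D (bas Q m) = a)).card : ℕ) : ℝ) -
      R * (1 / (D : ℝ) ^ (n * N))| ≤ R * (2 * Real.exp (-(3 * √L))) := by
    intro a ha
    have h2 := hbox (fun p => (a p.divNat p.modNat : ℝ) / D) (fun p => ((a p.divNat p.modNat : ℝ) + 1) / D)
      (fun i => by positivity) (fun i => by gcongr; linarith) (fun p => by
        rw [div_le_one hDp]
        have : a p.divNat p.modNat + 1 ≤ D := hA a ha _ _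
        exact_mod_cast this)
    have e1 : ∑ m ∈ Finset.Ioc 0 R, ∏ p : Fin (n * N), ind ((a p.divNat p.modNat : ℝ) / D)
        (((a p.divNat p.modNat : ℝ) + 1) / D) (yy x (bas Q m) p) =
        (((Finset.Ioc 0 R).filter (fun m => cls x N D (bas Q m) = a)).card : ℝ) := by
      rw [sum_congr rfl fun m _ => ind_prod x N D (bas Q m) hD1 a, Finset.card_filter]
      push_cast
      rfl
    have e2 : ∏ p : Fin (n * N), (((a p.divNat p.modNat : ℝ) + 1) / D - (a p.divNat p.modNat : ℝ) / D) =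
        1 / (D : ℝ) ^ (n * N) := by
      have : ∀ p : Fin (n * N), ((a p.divNat p.modNat : ℝ) + 1) / D - (a p.divNat p.modNat : ℝ) / D = 1 / D := by
        intro i; field_simp; ring
      rw [prod_congr rfl fun i _ => this i, prod_const, card_univ, Fintype.card_fin, one_div_pow]
    rw [e1, e2] at h2
    exact h2
  have hAc : (A.card : ℝ) ≤ (D : ℝ) ^ (n * N) := by
    have h2 : A ⊆ Fintype.piFinset (fun _ : Fin n => Fintype.piFinset (fun _ : Fin N => range D)) := by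
      intro a ha
      rw [Fintype.mem_piFinset]
      intro j
      rw [Fintype.mem_piFinset]
      intro i
      rw [mem_range]
      exact hA a ha j i
    have h3 := card_le_card h2
    rw [Fintype.card_piFinset] at h3
    simp only [Fintype.card_piFinset, card_range, prod_const, card_univ, Fintype.card_fin] at h3
    rw [← pow_mul, mul_comm N n] at h3
    exact_mod_cast h3
  have h2 : ((((Finset.Ioc 0 R).filter (fun m => cls x N D (bas Q m) ∈ A)).card : ℕ) : ℝ) =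
      ∑ a ∈ A, (((Finset.Ioc 0 R).filter (fun m => cls x N D (bas Q m) = a)).card : ℝ) := by
    have h3 : ((Finset.Ioc 0 R).filter (fun m => cls x N D (bas Q m) ∈ A)).card =
        ∑ a ∈ A, ((Finset.Ioc 0 R).filter (fun m => cls x N D (bas Q m) = a)).card := by
      have h4 : (Finset.Ioc 0 R).filter (fun m => cls x N D (bas Q m) ∈ A) =
          A.biUnion (fun a => (Finset.Ioc 0 R).filter (fun m => cls x N D (bas Q m) = a)) := by
        ext m
        simp only [mem_filter, mem_biUnion]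
        constructor
        · rintro ⟨h5, h6⟩
          exact ⟨_, h6, h5, rfl⟩
        · rintro ⟨a, h5, h6, h7⟩
          exact ⟨h6, h7 ▸ h5⟩
      rw [h4, card_biUnion]
      intro a _ b _ hab
      rw [Function.onFun, Finset.disjoint_left]
      intro r hr hr'
      rw [mem_filter] at hr hr'
      exact hab (hr.2.symm.trans hr'.2)
    rw [h3]
    push_cast
    rfl
  have h3 : |((((Finset.Ioc 0 R).filter (fun m => cls x N D (bas Q m) ∈ A)).card : ℕ) : ℝ) -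
      R * (A.card / (D : ℝ) ^ (n * N))| ≤ Real.exp (√L) * (R * (2 * Real.exp (-(3 * √L)))) := by
    have e1 : (R : ℝ) * (A.card / (D : ℝ) ^ (n * N)) =
        ∑ a ∈ A, (R : ℝ) * (1 / (D : ℝ) ^ (n * N)) := by
      rw [sum_const, nsmul_eq_mul]; ring
    rw [h2, e1, ← sum_sub_distrib]
    refine (abs_sum_le_sum_abs _ _).trans ((sum_le_sum h1).trans ?_)
    rw [sum_const, nsmul_eq_mul]
    exact mul_le_mul_of_nonneg_right (hAc.trans hDN) (by positivity)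
  have h5 : 1 ≤ R * Real.exp (-(2 * √L)) := by
    rw [hRL, ← Real.exp_add]
    exact Real.one_le_exp (by linarith)
  have h6 : Real.exp (√L) * (R * (2 * Real.exp (-(3 * √L)))) = 2 * (R * Real.exp (-(2 * √L))) := by
    have : Real.exp (-(2 * √L)) = Real.exp (√L) * Real.exp (-(3 * √L)) := by
      rw [← Real.exp_add]; congr 1; ring
    rw [this]; ring
  have h7 : 3 * (R * Real.exp (-(2 * √L))) ≤ R * Real.exp (-√L) := by
    have : Real.exp (-√L) = Real.exp (√L) * Real.exp (-(2 * √L)) := by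
      rw [← Real.exp_add]; congr 1; ring
    rw [this]
    have h8 : 0 < R * Real.exp (-(2 * √L)) := by positivity
    nlinarith
  rw [h6] at h3
  refine h3.trans ?_
  linarith

end Pool.Agent.W5h30.PB
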