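import Pool.Agent.W5h30.BS.Poly

/-!
# Exponential sums of a polynomial with badly approximable leading coefficient (helper30)
-/

set_option autoImplicit false

namespace Pool.Agent.W5h30.PB

open Finset Polynomial
open Pool.Agent.Y957.VK (WJ TT dz)
open Pool.Agent.Y933.KD (e norm_e e_add)
open Pool.Agent.W5h30.BS (tt_type poly_bound)

/-- the exponential sums of a real polynomial -/
theorem weyl : ∃ C : ℕ, ∀ (τ M : ℕ) (G : ℝ[X]) (C0 : ℝ) (R U : ℕ), 1 ≤ C0 →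
    1 ≤ G.natDegree → G.natDegree ≤ M →
    (∀ q : ℤ, q ≠ 0 → 1 / (C0 * |(q : ℝ)| ^ τ) ≤ dz (G.leadingCoeff * q)) → 1 ≤ U →
    ‖∑ m ∈ Finset.Ioc 0 R, e (G.eval (m : ℝ))‖ ≤
      R * (Real.exp (C * ((M : ℝ) + 4 * τ + 7) ^ C) * C0 *
        (U : ℝ) ^ (-(1 / (8 * ((M : ℝ) + 4 * τ + 7) ^ 6)) : ℝ)) +
      2 * ((U ^ (τ + 1) : ℕ) : ℝ) ^ 2 := by
  obtain ⟨C, hC⟩ := tt_type
  refine ⟨C, ?_⟩
  intro τ M G C0 R U hC0 hdeg hdegM hx hU
  refine poly_bound G (M + 2) (U ^ (τ + 1)) R (by omega) (Nat.one_le_pow _ _ hU)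
    (Real.exp (C * ((M : ℝ) + 4 * τ + 7) ^ C) * C0 *
        (U : ℝ) ^ (-(1 / (8 * ((M : ℝ) + 4 * τ + 7) ^ 6)) : ℝ)) ?_
  intro n
  have h1 := hC τ G.leadingCoeff C0 hC0 hx (M + 2) G.natDegree U 1 1
    (fun j => (taylor (n : ℝ) G).coeff j) (by omega)
    (by rw [Finset.mem_Icc]; omega) hU one_ne_zero (by simp) (by
      have h2 := coeff_taylor_natDegree (n : ℝ) G
      rw [h2]
      push_cast
      ring)
  have e1 : (((M + 2 : ℕ) : ℝ) + 4 * τ + 5) = (M : ℝ) + 4 * τ + 7 := by push_cast; ring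
  rw [e1, one_pow, mul_one] at h1
  exact h1

end Pool.Agent.W5h30.PB
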